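import Pool.Agent.Q74.SF.Def

/-! # Project SF, JOB Mark: the exact Markov identity -/

set_option autoImplicit false

namespace Pool.Agent.Q225.SF

open Finset
open Pool.Agent.Q74.SF
open Pool.Agent.Q74.KP
open Pool.Agent.Q74.AR (oc of oc_per of_per)
open Pool.Agent.Q158.Pair (T)

theorem T_shift_oc (m : ℕ) (y j : ℤ) : T^[m] (y + 2 ^ m * j) = T^[m] y + 3 ^ oc m y * j := by
  have h := of_per m y j
  unfold of at h
  rw [oc_per] at h
  have h2 : (2 : ℝ) ^ m ≠ 0 := by positivity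
  have h3 : (((T^[m] (y + 2 ^ m * j) : ℤ) : ℝ)) = ((T^[m] y + 3 ^ oc m y * j : ℤ) : ℝ) := by
    push_cast at h ⊢
    have e : (3 : ℝ) ^ oc m y * (y + 2 ^ m * j) / 2 ^ m = 3 ^ oc m y * y / 2 ^ m + 3 ^ oc m y * j := by
      field_simp
    rw [e] at h
    linarith
  exact_mod_cast h3

theorem sum_split (M R : ℕ) (hM : 0 < M) (F : ℕ → ℝ) :
    ∑ i ∈ range (M * R), F i = ∑ x ∈ range M, ∑ n ∈ range R, F (x + M * n) := by
  rw [← sum_product']
  symm
  apply sum_nbij' (fun p => p.1 + M * p.2) (fun i => (i % M, i / M))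
  · rintro ⟨x, n⟩ hp
    simp only [mem_product, mem_range] at hp ⊢
    calc x + M * n < M + M * n := by omega
      _ = M * (n + 1) := by ring
      _ ≤ M * R := Nat.mul_le_mul_left M hp.2
  · intro i hi
    simp only [mem_product, mem_range] at hi ⊢
    exact ⟨Nat.mod_lt _ hM, Nat.div_lt_of_lt_mul hi⟩
  · rintro ⟨x, n⟩ hp
    simp only [mem_product, mem_range] at hp
    simp only [Prod.mk.injEq]
    constructor
    · rw [Nat.add_mul_mod_self_left, Nat.mod_eq_of_lt hp.1]
    · rw [Nat.add_mul_div_left _ _ hM, Nat.div_eq_of_lt hp.1, zero_add]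
  · intro i _
    exact Nat.mod_add_div i M
  · rintro ⟨x, n⟩ _
    rfl

theorem mark : S_Mark := by
  intro k Φ m r a b
  unfold EE
  rw [pow_add, sum_split (2 ^ m) (2 ^ r) (by positivity) (fun i : ℕ => Φ (Vv a b (m + r) (i : ℤ)))]
  have key : ∀ x n : ℕ, Vv a b (m + r) ((x + 2 ^ m * n : ℕ) : ℤ) =
      Vv (fun i => a i + oc m (yy a b i x)) (fun i => T^[m] (yy a b i x)) r (n : ℤ) := by
    intro x n
    have e1 : ∀ i, yy a b i ((x + 2 ^ m * n : ℕ) : ℤ) = yy a b i x + 2 ^ m * (3 ^ a i * n) := by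
      intro i
      unfold yy
      push_cast
      ring
    have e2 : ∀ i, T^[m] (yy a b i ((x + 2 ^ m * n : ℕ) : ℤ)) =
        yy (fun i => a i + oc m (yy a b i x)) (fun i => T^[m] (yy a b i x)) i n := by
      intro i
      rw [e1, T_shift_oc]
      show _ = 3 ^ (a i + oc m (yy a b i x)) * (n : ℤ) + T^[m] (yy a b i x)
      rw [pow_add]
      ring
    funext i
    unfold Vv
    refine Prod.ext ?_ ?_
    · show (a i : ℤ) + oc (m + r) (yy a b i ((x + 2 ^ m * n : ℕ) : ℤ)) =
        ((a i + oc m (yy a b i x) : ℕ) : ℤ) +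
          oc r (yy (fun i => a i + oc m (yy a b i x)) (fun i => T^[m] (yy a b i x)) i n)
      rw [oc_add, e2, e1, oc_per]
      push_cast
      ring
    · show T^[m + r] (yy a b i ((x + 2 ^ m * n : ℕ) : ℤ)) =
        T^[r] (yy (fun i => a i + oc m (yy a b i x)) (fun i => T^[m] (yy a b i x)) i n)
      rw [add_comm m r, Function.iterate_add_apply, e2]
  simp only [key]
  rw [← sum_div, div_div, ← pow_add, add_comm r m]

end Pool.Agent.Q225.SF
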