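import Pool.Agent.Q225.SF.Mark

/-! # Project SF, JOB Bad: after `m` steps the offsets are small -/

set_option autoImplicit false

namespace Pool.Agent.Q225.SF

open Finset
open Pool.Agent.Q74.SF
open Pool.Agent.Q74.KP
open Pool.Agent.Q74.AR (oc of oc_per of_per of_nonneg bE bE_mul bE_sq sum_oc sum_of)
open Pool.Agent.Q158.Pair (T)
open Pool.Agent.Q158.Col4 (cI)

theorem EE_oc (m : ℕ) (g : ℕ → ℝ) : EE m (fun x => g (oc m x)) = bE m g := by
  unfold EE
  rw [sum_oc]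
  field_simp

theorem EE_cheb (m : ℕ) (hm : 0 < m) (A : ℝ) (hA : 0 < A) (h : ℕ) :
    EE m (fun x => ((oc m (x + (h : ℕ)) : ℝ) - m / 2) ^ 2 / (A ^ 2 * m)) = 1 / (4 * A ^ 2) := by
  have h1 := EE_shift (N := m) (F := fun x => ((oc m x : ℝ) - m / 2) ^ 2 / (A ^ 2 * m))
    (fun x j => by simp only [oc_per]) (h : ℤ)
  rw [h1, EE_oc m (fun k => ((k : ℝ) - m / 2) ^ 2 / (A ^ 2 * m))]
  have h2 : (fun k : ℕ => ((k : ℝ) - m / 2) ^ 2 / (A ^ 2 * m)) =
      fun k : ℕ => (1 / (A ^ 2 * m)) * ((k : ℝ) - m / 2) ^ 2 := by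
    funext k
    ring
  rw [h2, bE_mul, bE_sq]
  have : (m : ℝ) ≠ 0 := by positivity
  field_simp
  ring

theorem EE_of (m : ℕ) (h : ℕ) : EE m (fun x => of m (x + (h : ℕ))) = m / 4 := by
  have h1 := EE_shift (N := m) (F := fun x => of m x) (fun x j => by simp only [of_per]) (h : ℤ)
  rw [h1]
  unfold EE
  rw [sum_of]
  field_simp

theorem T_of (m : ℕ) (y : ℤ) : ((T^[m] y : ℤ) : ℝ) = 3 ^ oc m y * y / 2 ^ m + of m y := by
  unfold of
  ring

/-- the deterministic part -/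
theorem off_of {k : ℕ} {ρ κ A δ : ℝ} (hρ : 0 < ρ) (hκ : 0 < κ) (hA : 0 < A) {m r H : ℕ}
    (hm : 0 < m) (hr : κ * m ≤ r) (hH : 1 ≤ H) (hcH : cI * Real.log H ≤ (1 + δ) * m)
    (hδ : δ / cI ≤ ρ * κ / 4) (h1 : A * √m * Real.log 3 ≤ ρ * κ * m / 4) (h2 : Real.log 3 ≤ ρ * κ * m / 4)
    (h3 : 8 * A / √κ ≤ ρ * √√(r : ℝ))
    (h : Fin k → ℕ) (hh : ∀ i, h i < H) (x : ℤ)
    (g1 : ∀ i, |(oc m (x + (h i : ℕ)) : ℝ) - m / 2| ≤ A * √m)
    (g2 : ∀ i, of m (x + (h i : ℕ)) ≤ Real.exp (ρ * r) / 3) :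
    Off ρ r (fun i => oc m (x + (h i : ℕ))) (fun i => T^[m] (x + (h i : ℕ))) := by
  have hr0 : (0 : ℝ) < r := lt_of_lt_of_le (by positivity) hr
  have hr1 : (1 : ℝ) ≤ r := by
    have : 0 < r := by exact_mod_cast hr0
    exact_mod_cast this
  constructor
  · intro i j
    have hlog : 0 ≤ Real.log r := Real.log_nonneg hr1
    have h4 : ((oc m (x + (h j : ℕ)) : ℝ) - oc m (x + (h i : ℕ))) ≤ 2 * A * √m := by
      have := (abs_le.1 (g1 i)).1
      have := (abs_le.1 (g1 j)).2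
      linarith
    have h5 : Real.log r ≤ 4 * √√(r : ℝ) := by
      have e : Real.log r = 4 * Real.log (√√(r : ℝ)) := by
        rw [Real.log_sqrt (by positivity), Real.log_sqrt (by positivity)]
        ring
      rw [e]
      have := Real.log_le_sub_one_of_pos (show 0 < √√(r : ℝ) by positivity)
      linarith
    have h6 : √(m : ℝ) ≤ √(r : ℝ) / √κ := by
      rw [le_div_iff₀ (by positivity), ← Real.sqrt_mul (by positivity)]
      apply Real.sqrt_le_sqrt
      linarith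
    have h7 : √(r : ℝ) = √√(r : ℝ) * √√(r : ℝ) := (Real.mul_self_sqrt (by positivity)).symm
    have h8 : (r : ℝ) = √(r : ℝ) * √(r : ℝ) := (Real.mul_self_sqrt (by positivity)).symm
    have hs : 0 < √κ := by positivity
    calc ((oc m (x + (h j : ℕ)) : ℝ) - oc m (x + (h i : ℕ))) * Real.log r
        ≤ (2 * A * √m) * Real.log r := mul_le_mul_of_nonneg_right h4 hlog
      _ ≤ (2 * A * √m) * (4 * √√(r : ℝ)) := mul_le_mul_of_nonneg_left h5 (by positivity)
      _ ≤ (2 * A * (√(r : ℝ) / √κ)) * (4 * √√(r : ℝ)) := by gcongr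
      _ = √(r : ℝ) * √√(r : ℝ) * (8 * A / √κ) := by ring
      _ ≤ √(r : ℝ) * √√(r : ℝ) * (ρ * √√(r : ℝ)) := mul_le_mul_of_nonneg_left h3 (by positivity)
      _ = ρ * (√(r : ℝ) * (√√(r : ℝ) * √√(r : ℝ))) := by ring
      _ = ρ * r := by rw [← h7, ← h8]
  · intro i j hij
    set a : Fin k → ℕ := fun i => oc m (x + (h i : ℕ)) with ha
    have hai : a i ≤ a j := hij
    obtain ⟨d, hd⟩ := Nat.exists_eq_add_of_le hai
    have hsub : a j - a i = d := by omega
    show |((T^[m] (x + (h j : ℕ)) : ℤ) : ℝ) - 3 ^ (a j - a i) * ((T^[m] (x + (h i : ℕ)) : ℤ) : ℝ)| ≤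
      3 ^ (a j - a i) * Real.exp (ρ * r)
    rw [hsub, T_of, T_of]
    have e1 : (3 : ℝ) ^ oc m (x + (h j : ℕ)) = 3 ^ a i * 3 ^ d := by
      rw [← pow_add, ← hd]
    have e2 : (3 : ℝ) ^ oc m (x + (h i : ℕ)) = 3 ^ a i := rfl
    rw [e1, e2]
    have e3 : (3 : ℝ) ^ a i * 3 ^ d * ((x + (h j : ℕ) : ℤ) : ℝ) / 2 ^ m + of m (x + (h j : ℕ)) -
        3 ^ d * (3 ^ a i * ((x + (h i : ℕ) : ℤ) : ℝ) / 2 ^ m + of m (x + (h i : ℕ))) =
        3 ^ d * (3 ^ a i / 2 ^ m * ((h j : ℝ) - h i)) + of m (x + (h j : ℕ)) - 3 ^ d * of m (x + (h i : ℕ)) := by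
      push_cast
      ring
    rw [e3]
    have p1 : (1 : ℝ) ≤ 3 ^ d := one_le_pow₀ (by norm_num)
    have o1 := of_nonneg m (x + (h j : ℕ))
    have o2 := of_nonneg m (x + (h i : ℕ))
    have q1 := g2 j
    have q2 := g2 i
    have hexp : 0 < Real.exp (ρ * r) := Real.exp_pos _
    -- the main term
    have main : (3 : ℝ) ^ a i / 2 ^ m * H ≤ Real.exp (ρ * r) / 3 := by
      have hcI : 0 < cI := by
        unfold cI
        have : 0 < Real.log (4 / 3) := Real.log_pos (by norm_num)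
        positivity
      have hHpos : (0 : ℝ) < H := by exact_mod_cast hH
      have l1 : (3 : ℝ) ^ a i = Real.exp (a i * Real.log 3) := by
        rw [mul_comm, Real.exp_mul, Real.exp_log (by norm_num), Real.rpow_natCast]
      have l2 : (2 : ℝ) ^ m = Real.exp (m * Real.log 2) := by
        rw [mul_comm, Real.exp_mul, Real.exp_log (by norm_num), Real.rpow_natCast]
      have l3 : (H : ℝ) = Real.exp (Real.log H) := (Real.exp_log hHpos).symm
      have l4 : Real.exp (ρ * r) / 3 = Real.exp (ρ * r - Real.log 3) := by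
        rw [Real.exp_sub, Real.exp_log (by norm_num)]
      rw [l4, l1, l2, l3, ← Real.exp_sub, ← Real.exp_add]
      apply Real.exp_le_exp.2
      have m1 : (a i : ℝ) ≤ m / 2 + A * √m := by
        have := (abs_le.1 (g1 i)).2
        show (oc m (x + (h i : ℕ)) : ℝ) ≤ _
        linarith
      have l3pos : 0 < Real.log 3 := Real.log_pos (by norm_num)
      have m2 : (a i : ℝ) * Real.log 3 ≤ m / 2 * Real.log 3 + A * √m * Real.log 3 := by
        rw [← add_mul]
        exact mul_le_mul_of_nonneg_right m1 l3pos.le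
      have m3 : Real.log H ≤ (m + δ * m) / cI := by
        rw [le_div_iff₀ hcI]
        linarith
      have m4 : (m : ℝ) / cI = m * Real.log 2 - m / 2 * Real.log 3 := by
        have : Real.log (4 / 3) = 2 * Real.log 2 - Real.log 3 := by
          rw [Real.log_div (by norm_num) (by norm_num), show (4 : ℝ) = 2 ^ 2 by norm_num, Real.log_pow]
          push_cast
          ring
        unfold cI
        have hl : 0 < Real.log (4 / 3) := Real.log_pos (by norm_num)
        rw [div_div_eq_mul_div, this]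
        ring
      have m5 : δ * m / cI ≤ ρ * κ * m / 4 := by
        have := mul_le_mul_of_nonneg_right hδ (Nat.cast_nonneg m : (0 : ℝ) ≤ m)
        calc δ * m / cI = δ / cI * m := by ring
          _ ≤ ρ * κ / 4 * m := this
          _ = _ := by ring
      have m6 : ρ * κ * m ≤ ρ * r := by
        have := mul_le_mul_of_nonneg_left hr hρ.le
        linarith
      have m7 : (0 : ℝ) ≤ ρ * κ * m / 4 := by positivity
      rw [add_div] at m3
      linarith
    have hdiff : |(h j : ℝ) - h i| ≤ H := by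
      have b1 : (h j : ℝ) ≤ H := by exact_mod_cast (hh j).le
      have b2 : (h i : ℝ) ≤ H := by exact_mod_cast (hh i).le
      have b3 : (0 : ℝ) ≤ h j := Nat.cast_nonneg _
      have b4 : (0 : ℝ) ≤ h i := Nat.cast_nonneg _
      rw [abs_le]
      constructor <;> linarith
    have habs : |3 ^ a i / 2 ^ m * ((h j : ℝ) - h i)| ≤ Real.exp (ρ * r) / 3 := by
      rw [abs_mul, abs_of_pos (by positivity : (0 : ℝ) < 3 ^ a i / 2 ^ m)]
      exact (mul_le_mul_of_nonneg_left hdiff (by positivity)).trans main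
    calc |3 ^ d * (3 ^ a i / 2 ^ m * ((h j : ℝ) - h i)) + of m (x + (h j : ℕ)) - 3 ^ d * of m (x + (h i : ℕ))|
        ≤ |3 ^ d * (3 ^ a i / 2 ^ m * ((h j : ℝ) - h i))| + |of m (x + (h j : ℕ))| +
          |3 ^ d * of m (x + (h i : ℕ))| := by
          refine (abs_sub _ _).trans ?_
          exact add_le_add_left (abs_add_le _ _) _
      _ = 3 ^ d * |3 ^ a i / 2 ^ m * ((h j : ℝ) - h i)| + of m (x + (h j : ℕ)) + 3 ^ d * of m (x + (h i : ℕ)) := by
          rw [abs_mul ((3 : ℝ) ^ d), abs_of_pos (by positivity : (0 : ℝ) < 3 ^ d), abs_of_nonneg o1,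
            abs_mul ((3 : ℝ) ^ d) (of m _), abs_of_pos (by positivity : (0 : ℝ) < 3 ^ d), abs_of_nonneg o2]
      _ ≤ 3 ^ d * (Real.exp (ρ * r) / 3) + 3 ^ d * (Real.exp (ρ * r) / 3) + 3 ^ d * (Real.exp (ρ * r) / 3) := by
          have w1 := mul_le_mul_of_nonneg_left habs (by positivity : (0 : ℝ) ≤ 3 ^ d)
          have w2 := mul_le_mul_of_nonneg_left q2 (by positivity : (0 : ℝ) ≤ 3 ^ d)
          have w3 : of m (x + (h j : ℕ)) ≤ 3 ^ d * (Real.exp (ρ * r) / 3) := by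
            nlinarith
          linarith
      _ = 3 ^ d * Real.exp (ρ * r) := by ring

theorem bad : S_Bad := by
  classical
  intro k ρ κ ε hρ hκ hε
  have hcI : 0 < cI := by
    unfold cI
    have : 0 < Real.log (4 / 3) := Real.log_pos (by norm_num)
    positivity
  have hl3 : 0 < Real.log 3 := Real.log_pos (by norm_num)
  set A : ℝ := √(k / (2 * ε)) + 1 with hAdef
  have hA : 0 < A := by positivity
  have hA2 : (k : ℝ) * (1 / (4 * A ^ 2)) ≤ ε / 2 := by
    have h1 : (k : ℝ) / (2 * ε) ≤ A ^ 2 := by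
      have h2 : (k : ℝ) / (2 * ε) = √(k / (2 * ε)) ^ 2 := (Real.sq_sqrt (by positivity)).symm
      rw [h2]
      apply pow_le_pow_left₀ (Real.sqrt_nonneg _)
      rw [hAdef]
      linarith
    rw [div_le_iff₀ (by positivity)] at h1
    rw [mul_one_div, div_le_iff₀ (by positivity)]
    linarith
  refine ⟨ρ * κ * cI / 4, by positivity, ⌈(4 * A * Real.log 3 / (ρ * κ)) ^ 2 + 4 * Real.log 3 / (ρ * κ) +
    (8 * A / √κ / ρ) ^ 4 / κ + 3 * k / (ε * (ρ * κ) ^ 2)⌉₊ + 1, ?_⟩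
  intro m r hm₀ hr H hH hcH h hh
  have hm1 : (4 * A * Real.log 3 / (ρ * κ)) ^ 2 + 4 * Real.log 3 / (ρ * κ) +
    (8 * A / √κ / ρ) ^ 4 / κ + 3 * k / (ε * (ρ * κ) ^ 2) ≤ m := by
    refine (Nat.le_ceil _).trans ?_
    exact Nat.cast_le.2 (le_trans (Nat.le_succ _) hm₀)
  have t1 : 0 ≤ (4 * A * Real.log 3 / (ρ * κ)) ^ 2 := by positivity
  have t2 : 0 ≤ 4 * Real.log 3 / (ρ * κ) := by positivity
  have t3 : 0 ≤ (8 * A / √κ / ρ) ^ 4 / κ := by positivity
  have t4 : 0 ≤ 3 * k / (ε * (ρ * κ) ^ 2) := by positivity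
  have c1 : 0 < m := by omega
  have c1' : (0 : ℝ) < m := by exact_mod_cast c1
  have c2 : A * √m * Real.log 3 ≤ ρ * κ * m / 4 := by
    have h1 : 4 * A * Real.log 3 / (ρ * κ) ≤ √m := by
      apply Real.le_sqrt_of_sq_le
      linarith
    rw [div_le_iff₀ (by positivity)] at h1
    have h2 : (m : ℝ) = √m * √m := (Real.mul_self_sqrt c1'.le).symm
    have h3 := mul_le_mul_of_nonneg_left h1 (Real.sqrt_nonneg (m : ℝ))
    calc A * √m * Real.log 3 = √m * (4 * A * Real.log 3) / 4 := by ring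
      _ ≤ √m * (√m * (ρ * κ)) / 4 := by linarith
      _ = ρ * κ * (√m * √m) / 4 := by ring
      _ = ρ * κ * m / 4 := by rw [← h2]
  have c3 : Real.log 3 ≤ ρ * κ * m / 4 := by
    have h1 : 4 * Real.log 3 / (ρ * κ) ≤ m := by linarith
    rw [div_le_iff₀ (by positivity)] at h1
    linarith
  have c4 : 8 * A / √κ ≤ ρ * √√(r : ℝ) := by
    have h1 : (8 * A / √κ / ρ) ^ 4 / κ ≤ m := by linarith
    rw [div_le_iff₀ hκ] at h1
    have h2 : (8 * A / √κ / ρ) ^ 4 ≤ r := by linarith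
    have h3 : 8 * A / √κ / ρ ≤ √√(r : ℝ) := by
      apply Real.le_sqrt_of_sq_le
      apply Real.le_sqrt_of_sq_le
      rw [← pow_mul]
      exact h2
    rw [div_le_iff₀ hρ] at h3
    linarith
  have c5 : (k : ℝ) * (m / 4 / (Real.exp (ρ * r) / 3)) ≤ ε / 2 := by
    have h1 : 3 * (k : ℝ) / (ε * (ρ * κ) ^ 2) ≤ m := by linarith
    rw [div_le_iff₀ (by positivity)] at h1
    have h2 : (ρ * κ * m) ^ 2 / 2 ≤ Real.exp (ρ * r) := by
      have h3 : ρ * κ * m ≤ ρ * r := by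
        have := mul_le_mul_of_nonneg_left hr hρ.le
        linarith
      have h4 := Real.quadratic_le_exp_of_nonneg (show 0 ≤ ρ * κ * m by positivity)
      have h5 := Real.exp_le_exp.2 h3
      have h6 : 0 ≤ ρ * κ * m := by positivity
      linarith
    have h7 : (0 : ℝ) < (ρ * κ * m) ^ 2 / 2 := by positivity
    calc (k : ℝ) * (m / 4 / (Real.exp (ρ * r) / 3)) = 3 * k * m / 4 / Real.exp (ρ * r) := by
          field_simp
      _ ≤ 3 * k * m / 4 / ((ρ * κ * m) ^ 2 / 2) := by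
          apply div_le_div_of_nonneg_left (by positivity) h7 h2
      _ = 3 * k / (2 * (ρ * κ) ^ 2 * m) := by
          field_simp
          ring
      _ ≤ ε / 2 := by
          rw [div_le_iff₀ (by positivity)]
          linarith
  have hE : 0 < Real.exp (ρ * r) / 3 := by positivity
  have step : ∀ x : ℤ, (if Off ρ r (fun i => oc m (x + (h i : ℕ))) (fun i => T^[m] (x + (h i : ℕ))) then (0 : ℝ) else 1) ≤
      ∑ i, ((oc m (x + (h i : ℕ)) : ℝ) - m / 2) ^ 2 / (A ^ 2 * m) +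
      ∑ i, (1 / (Real.exp (ρ * r) / 3)) * of m (x + (h i : ℕ)) := by
    intro x
    have s1 : ∀ i ∈ (univ : Finset (Fin k)), 0 ≤ ((oc m (x + (h i : ℕ)) : ℝ) - m / 2) ^ 2 / (A ^ 2 * m) :=
      fun i _ => by positivity
    have s2 : ∀ i ∈ (univ : Finset (Fin k)), 0 ≤ (1 / (Real.exp (ρ * r) / 3)) * of m (x + (h i : ℕ)) :=
      fun i _ => mul_nonneg (by positivity) (of_nonneg _ _)
    have s1' := sum_nonneg s1
    have s2' := sum_nonneg s2
    by_cases g1 : ∀ i, |(oc m (x + (h i : ℕ)) : ℝ) - m / 2| ≤ A * √m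
    · by_cases g2 : ∀ i, of m (x + (h i : ℕ)) ≤ Real.exp (ρ * r) / 3
      · rw [if_pos (off_of hρ hκ hA c1 hr hH hcH (by
          rw [div_le_iff₀ hcI]
          exact le_of_eq (by ring)) c2 c3 c4 h hh x g1 g2)]
        linarith
      · push Not at g2
        obtain ⟨i, hi⟩ := g2
        have h1 := single_le_sum s2 (mem_univ i)
        have h2 : 1 ≤ (1 / (Real.exp (ρ * r) / 3)) * of m (x + (h i : ℕ)) := by
          rw [one_div, inv_mul_eq_div, le_div_iff₀ hE, one_mul]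
          exact hi.le
        split_ifs <;> linarith
    · push Not at g1
      obtain ⟨i, hi⟩ := g1
      have h1 := single_le_sum s1 (mem_univ i)
      have h2 : 1 ≤ ((oc m (x + (h i : ℕ)) : ℝ) - m / 2) ^ 2 / (A ^ 2 * m) := by
        rw [le_div_iff₀ (by positivity), one_mul, ← sq_abs ((oc m (x + (h i : ℕ)) : ℝ) - m / 2)]
        have e : A ^ 2 * m = (A * √m) ^ 2 := by rw [mul_pow, Real.sq_sqrt c1'.le]
        rw [e]
        exact pow_le_pow_left₀ (by positivity) hi.le 2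
      split_ifs <;> linarith
  refine (EE_mono m step).trans ?_
  rw [EE_add, EE_sum, EE_sum]
  simp only [EE_cheb m c1 A hA, EE_mul, EE_of]
  rw [sum_const, sum_const, card_univ, Fintype.card_fin, nsmul_eq_mul, nsmul_eq_mul]
  have e1 : (k : ℝ) * (1 / (Real.exp (ρ * r) / 3) * (m / 4)) = (k : ℝ) * (m / 4 / (Real.exp (ρ * r) / 3)) := by
    ring
  rw [e1]
  linarith

end Pool.Agent.Q225.SF
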